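import Pool.Agent.N929.EG.Stm

/-!
# EG/SEL: random families without conflicts
-/

set_option autoImplicit false

namespace Pool.Agent.N547.EG.Sel

open Finset
open Pool.Agent.N929.EG
open scoped Classical

noncomputable section

/-- functions with prescribed values -/
theorem card_prescribed {B : Type} [Fintype B] [DecidableEq B] (S : Finset B) (f : B → Bool) :
    ((univ : Finset (B → Bool)).filter (fun ω => ∀ b ∈ S, ω b = f b)).card * 2 ^ S.card =
      Fintype.card (B → Bool) := by
  have h1 : (univ : Finset (B → Bool)).filter (fun ω => ∀ b ∈ S, ω b = f b) =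
      Fintype.piFinset (fun b => if b ∈ S then {f b} else univ) := by
    ext ω
    rw [mem_filter, Fintype.mem_piFinset]
    constructor
    · rintro ⟨-, h⟩ b
      split_ifs with hb
      · rw [mem_singleton]
        exact h b hb
      · exact mem_univ _
    · intro h
      refine ⟨mem_univ _, fun b hb => ?_⟩
      have := h b
      rw [if_pos hb, mem_singleton] at this
      exact this
  rw [h1, Fintype.card_piFinset]
  have h2 : (2 : ℕ) ^ S.card = ∏ b : B, (if b ∈ S then 2 else 1) := by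
    rw [Finset.prod_ite, Finset.prod_const, Finset.prod_const_one, mul_one]
    congr 2
    ext b
    simp
  rw [h2, ← Finset.prod_mul_distrib, Fintype.card_pi]
  refine Finset.prod_congr rfl fun b _ => ?_
  split_ifs <;> simp

variable {σ : Type} (U : Finset σ) (cf : σ → σ → Prop)

/-- the random configurations -/
abbrev Om : Type := ↥U → Bool

/-- the closed neighbourhood -/
def Sp (p : σ) : Finset ↥U := univ.filter (fun b => b.1 = p ∨ cf p b.1)

/-- `p` is chosen and isolated -/
def Iso (ω : Om U) (p : σ) : Prop := ∀ b ∈ Sp U cf p, ω b = decide (b.1 = p)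

/-- the family -/
def La (ω : Om U) : Finset σ := U.filter (fun p => Iso U cf ω p)

variable {U cf}

lemma mem_Sp {p : σ} {b : ↥U} : b ∈ Sp U cf p ↔ b.1 = p ∨ cf p b.1 := by
  unfold Sp
  rw [mem_filter]
  exact ⟨fun h => h.2, fun h => ⟨mem_univ _, h⟩⟩

lemma card_Sp {d : ℕ} {p : σ} (hd : (U.filter (fun q' => cf p q')).card ≤ d) :
    (Sp U cf p).card ≤ d + 1 := by
  have h1 : (Sp U cf p).image Subtype.val ⊆ insert p (U.filter (fun q' => cf p q')) := by
    intro q hq
    rw [mem_image] at hq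
    obtain ⟨b, hb, rfl⟩ := hq
    rw [mem_Sp] at hb
    rw [mem_insert, mem_filter]
    rcases hb with h | h
    · exact Or.inl h
    · exact Or.inr ⟨b.2, h⟩
  have h2 := card_le_card h1
  rw [card_image_of_injective _ Subtype.val_injective] at h2
  exact h2.trans ((card_insert_le _ _).trans (by omega))

/-- pairwise disjoint neighbourhoods -/
def Far (U : Finset σ) (cf : σ → σ → Prop) (S : Finset σ) : Prop :=
  ∀ p ∈ S, ∀ q ∈ S, p ≠ q → Disjoint (Sp U cf p) (Sp U cf q)

lemma iso_all {S : Finset σ} (hS : Far U cf S) (ω : Om U) :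
    (∀ p ∈ S, Iso U cf ω p) ↔ ∀ b ∈ S.biUnion (Sp U cf), ω b = decide (b.1 ∈ S) := by
  have key : ∀ p ∈ S, ∀ b : ↥U, b ∈ Sp U cf p → (b.1 ∈ S ↔ b.1 = p) := by
    intro p hp b hb
    constructor
    · intro h
      by_contra hne
      exact Finset.disjoint_left.1 (hS p hp b.1 h (Ne.symm hne)) hb (mem_Sp.2 (Or.inl rfl))
    · intro h
      rw [h]
      exact hp
  constructor
  · intro h b hb
    rw [mem_biUnion] at hb
    obtain ⟨p, hp, hb⟩ := hb
    rw [h p hp b hb]
    exact decide_eq_decide.2 (key p hp b hb).symm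
  · intro h p hp b hb
    rw [h b (mem_biUnion.2 ⟨p, hp, hb⟩)]
    exact decide_eq_decide.2 (key p hp b hb)

/-- real indicator -/
def ir (p : σ) (ω : Om U) : ℝ := if Iso U cf ω p then 1 else 0

lemma sum_prod {S : Finset σ} (hS : Far U cf S) :
    ∑ ω : Om U, ∏ p ∈ S, ir (cf := cf) p ω =
      (∏ p ∈ S, (1 / 2 : ℝ) ^ (Sp U cf p).card) * Fintype.card (Om U) := by
  have h1 : ∀ ω : Om U, ∏ p ∈ S, ir (cf := cf) p ω =
      if ∀ b ∈ S.biUnion (Sp U cf), ω b = decide (b.1 ∈ S) then 1 else 0 := by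
    intro ω
    unfold ir
    by_cases h : ∀ p ∈ S, Iso U cf ω p
    · rw [if_pos ((iso_all hS ω).1 h)]
      exact prod_eq_one fun p hp => if_pos (h p hp)
    · rw [if_neg (fun h' => h ((iso_all hS ω).2 h'))]
      push Not at h
      obtain ⟨p, hp, hp'⟩ := h
      exact prod_eq_zero hp (if_neg hp')
  rw [sum_congr rfl fun ω _ => h1 ω, Finset.sum_boole]
  have h2 := card_prescribed (S.biUnion (Sp U cf)) (fun b => decide (b.1 ∈ S))
  rw [card_biUnion hS] at h2
  have h3 : (((univ : Finset (Om U)).filter (fun ω => ∀ b ∈ S.biUnion (Sp U cf),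
      ω b = decide (b.1 ∈ S))).card : ℝ) * 2 ^ (∑ p ∈ S, (Sp U cf p).card) =
      Fintype.card (Om U) := by exact_mod_cast h2
  rw [prod_pow_eq_pow_sum, ← h3, one_div, inv_pow]
  field_simp

lemma mgf {S : Finset σ} (hS : Far U cf S) :
    ∑ ω : Om U, ∏ p ∈ S, (1 - ir (cf := cf) p ω / 2) =
      (∏ p ∈ S, (1 - (1 / 2 : ℝ) ^ (Sp U cf p).card / 2)) * Fintype.card (Om U) := by
  have h1 : ∀ ω : Om U, ∏ p ∈ S, (1 - ir (cf := cf) p ω / 2) =
      ∑ T ∈ S.powerset, (-(1 / 2) : ℝ) ^ T.card * ∏ p ∈ T, ir (cf := cf) p ω := by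
    intro ω
    have e1 : ∏ p ∈ S, (1 - ir (cf := cf) p ω / 2) = ∏ p ∈ S, (-(1 / 2) * ir (cf := cf) p ω + 1) :=
      prod_congr rfl fun p _ => by ring
    rw [e1, Finset.prod_add]
    refine sum_congr rfl fun T _ => ?_
    rw [Finset.prod_const_one, mul_one, Finset.prod_mul_distrib, Finset.prod_const]
  rw [sum_congr rfl fun ω _ => h1 ω, sum_comm]
  have h2 : ∀ T ∈ S.powerset, ∑ ω : Om U, (-(1 / 2) : ℝ) ^ T.card * ∏ p ∈ T, ir (cf := cf) p ω =
      (∏ p ∈ T, (-(1 / 2) * (1 / 2 : ℝ) ^ (Sp U cf p).card)) * (∏ p ∈ S \ T, (1 : ℝ)) *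
        Fintype.card (Om U) := by
    intro T hT
    have hTS := mem_powerset.1 hT
    rw [← mul_sum, sum_prod (S := T) (fun p hp q hq => hS p (hTS hp) q (hTS hq)), ← mul_assoc,
      Finset.prod_const_one, mul_one, Finset.prod_mul_distrib, Finset.prod_const]
  rw [sum_congr rfl h2, ← sum_mul, ← Finset.prod_add]
  congr 1
  exact prod_congr rfl fun p _ => by ring

lemma prod_half {S : Finset σ} (hSU : S ⊆ U) (ω : Om U) :
    ∏ p ∈ S, (1 - ir (cf := cf) p ω / 2) =
      Real.exp (-(Real.log 2 * ((La U cf ω ∩ S).card : ℝ))) := by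
  have e0 : S.filter (fun p => Iso U cf ω p) = La U cf ω ∩ S := by
    ext p
    rw [mem_filter, mem_inter]
    constructor
    · rintro ⟨h, h'⟩
      exact ⟨mem_filter.2 ⟨hSU h, h'⟩, h⟩
    · rintro ⟨h', h⟩
      exact ⟨h, (mem_filter.1 h').2⟩
  have e1 : ∏ p ∈ S, (1 - ir (cf := cf) p ω / 2) =
      ∏ p ∈ S, (if Iso U cf ω p then (1 / 2 : ℝ) else 1) := by
    refine prod_congr rfl fun p _ => ?_
    unfold ir
    split_ifs <;> norm_num
  rw [e1, Finset.prod_ite, Finset.prod_const_one, mul_one, Finset.prod_const, e0,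
    ← Real.rpow_natCast, Real.rpow_def_of_pos (by norm_num)]
  congr 1
  rw [one_div, Real.log_inv]
  ring

/-- greedy choice -/
lemma greedy {d : ℕ} (hsym : ∀ q q', cf q q' → cf q' q)
    (hd : ∀ q ∈ U, (U.filter (fun q' => cf q q')).card ≤ d) (P : Finset σ) (hP : P ⊆ U) :
    ∃ S ⊆ P, Far U cf S ∧ P.card ≤ S.card * (d + 1) ^ 2 := by
  obtain ⟨S, hS, hmax⟩ := exists_max_image (P.powerset.filter (fun S => Far U cf S)) card
    ⟨∅, by
      rw [mem_filter]
      refine ⟨empty_mem_powerset _, ?_⟩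
      intro p hp
      simp at hp⟩
  rw [mem_filter, mem_powerset] at hS
  refine ⟨S, hS.1, hS.2, ?_⟩
  have h1 : P ⊆ S.biUnion (fun p => (Sp U cf p).biUnion (fun b => (Sp U cf b.1).image Subtype.val)) := by
    intro q hq
    have hex : ∃ p ∈ S, ∃ b : ↥U, b ∈ Sp U cf p ∧ b ∈ Sp U cf q := by
      by_cases hqS : q ∈ S
      · exact ⟨q, hqS, ⟨q, hP hq⟩, mem_Sp.2 (Or.inl rfl), mem_Sp.2 (Or.inl rfl)⟩
      · by_contra hcon
        push Not at hcon
        have hins : insert q S ∈ P.powerset.filter (fun S => Far U cf S) := by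
          rw [mem_filter, mem_powerset]
          refine ⟨insert_subset hq hS.1, ?_⟩
          intro a ha b hb hab
          rw [mem_insert] at ha hb
          rcases ha with rfl | ha
          · rcases hb with rfl | hb
            · exact absurd rfl hab
            · rw [Finset.disjoint_left]
              intro x hx hx'
              exact hcon b hb x hx' hx
          · rcases hb with rfl | hb
            · rw [Finset.disjoint_left]
              intro x hx hx'
              exact hcon a ha x hx hx'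
            · exact hS.2 a ha b hb hab
        have := hmax _ hins
        rw [card_insert_of_notMem hqS] at this
        omega
    obtain ⟨p, hp, b, hb1, hb2⟩ := hex
    rw [mem_biUnion]
    refine ⟨p, hp, ?_⟩
    rw [mem_biUnion]
    refine ⟨b, hb1, ?_⟩
    rw [mem_image]
    refine ⟨⟨q, hP hq⟩, ?_, rfl⟩
    rw [mem_Sp] at hb2 ⊢
    rcases hb2 with h | h
    · exact Or.inl h.symm
    · exact Or.inr (hsym _ _ h)
  have h2 := card_le_card h1
  refine h2.trans ?_
  refine card_biUnion_le_card_mul _ _ ((d + 1) ^ 2) fun p hp => ?_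
  refine (card_biUnion_le_card_mul _ _ (d + 1) fun b _ => ?_).trans ?_
  · exact card_image_le.trans (card_Sp (hd b.1 b.2))
  · rw [sq]
    exact Nat.mul_le_mul_right _ (card_Sp (hd p (hP (hS.1 hp))))

theorem sel : S_SEL := by
  intro d
  refine ⟨2 ^ (d + 3) * (d + 1) ^ 2, Nat.one_le_iff_ne_zero.2 (by positivity), ?_⟩
  intro σ U cf hsym hd
  obtain ⟨κ, hκ⟩ : ∃ κ : ℕ, κ = 2 ^ (d + 3) * (d + 1) ^ 2 := ⟨_, rfl⟩
  rw [← hκ]
  have hκ0 : 0 < κ := by rw [hκ]; positivity
  have hκR : (0 : ℝ) < κ := by exact_mod_cast hκ0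
  refine ⟨Om U, inferInstance, inferInstance, La U cf, ?_, ?_⟩
  · intro ω
    refine ⟨filter_subset _ _, ?_⟩
    intro p hp q hq hpq hc
    have hp' := mem_filter.1 hp
    have hq' := mem_filter.1 hq
    have e1 := hp'.2 ⟨q, hq'.1⟩ (mem_Sp.2 (Or.inr hc))
    have e2 := hq'.2 ⟨q, hq'.1⟩ (mem_Sp.2 (Or.inl rfl))
    rw [e1] at e2
    simp [Ne.symm hpq] at e2
  · intro P hP
    obtain ⟨S, hSP, hfar, hcard⟩ := greedy hsym hd P hP
    have hmgf := mgf hfar
    set Bad := (univ : Finset (Om U)).filter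
      (fun i => κ * (La U cf i ∩ P).card < P.card) with hBad
    have hSU := hSP.trans hP
    have h1 : (Bad.card : ℝ) * Real.exp (-(Real.log 2 * ((P.card : ℝ) / κ))) ≤
        ∑ ω : Om U, ∏ p ∈ S, (1 - ir (cf := cf) p ω / 2) := by
      calc (Bad.card : ℝ) * Real.exp (-(Real.log 2 * ((P.card : ℝ) / κ)))
          = ∑ ω ∈ Bad, Real.exp (-(Real.log 2 * ((P.card : ℝ) / κ))) := by
            rw [sum_const, nsmul_eq_mul]
        _ ≤ ∑ ω ∈ Bad, ∏ p ∈ S, (1 - ir (cf := cf) p ω / 2) := by
            refine sum_le_sum fun ω hω => ?_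
            have h2 := (mem_filter.1 hω).2
            have h3 : (La U cf ω ∩ S).card ≤ (La U cf ω ∩ P).card :=
              card_le_card (inter_subset_inter_left hSP)
            have h4 : ((La U cf ω ∩ S).card : ℝ) ≤ (P.card : ℝ) / κ := by
              rw [le_div_iff₀ hκR]
              have h5 : (La U cf ω ∩ S).card * κ ≤ P.card := by
                calc (La U cf ω ∩ S).card * κ ≤ (La U cf ω ∩ P).card * κ :=
                      Nat.mul_le_mul_right _ h3
                  _ = κ * (La U cf ω ∩ P).card := mul_comm _ _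
                  _ ≤ P.card := h2.le
              exact_mod_cast h5
            rw [prod_half hSU ω]
            apply Real.exp_le_exp.2
            have h5 : 0 ≤ Real.log 2 := Real.log_nonneg (by norm_num)
            have h6 := mul_le_mul_of_nonneg_left h4 h5
            linarith
        _ ≤ ∑ ω : Om U, ∏ p ∈ S, (1 - ir (cf := cf) p ω / 2) := by
            refine sum_le_sum_of_subset_of_nonneg (filter_subset _ _) fun ω _ _ => ?_
            rw [prod_half hSU ω]
            exact (Real.exp_pos _).le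
    rw [hmgf] at h1
    have h2 : (∏ p ∈ S, (1 - (1 / 2 : ℝ) ^ (Sp U cf p).card / 2)) ≤
        Real.exp (-(2 * ((P.card : ℝ) / κ))) := by
      have h3 : ∀ p ∈ S, (1 - (1 / 2 : ℝ) ^ (Sp U cf p).card / 2) ≤
          Real.exp (-((1 / 2) ^ (d + 2))) := by
        intro p hp
        have h4 : (1 / 2 : ℝ) ^ (d + 1) ≤ (1 / 2 : ℝ) ^ (Sp U cf p).card :=
          pow_le_pow_of_le_one (by norm_num) (by norm_num) (card_Sp (hd p (hSU hp)))
        have h5 := Real.add_one_le_exp (-((1 / 2 : ℝ) ^ (d + 2)))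
        have h6 : (1 / 2 : ℝ) ^ (d + 2) = (1 / 2) ^ (d + 1) / 2 := by
          rw [pow_succ]; ring
        linarith
      have h3' : ∀ p ∈ S, (0 : ℝ) ≤ 1 - (1 / 2 : ℝ) ^ (Sp U cf p).card / 2 := by
        intro p _
        have : (1 / 2 : ℝ) ^ (Sp U cf p).card ≤ 1 := pow_le_one₀ (by norm_num) (by norm_num)
        linarith
      refine (prod_le_prod h3' h3).trans ?_
      rw [prod_const, ← Real.exp_nat_mul]
      apply Real.exp_le_exp.2
      have h4 : (P.card : ℝ) ≤ S.card * ((d : ℝ) + 1) ^ 2 := by exact_mod_cast hcard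
      have h5 : (κ : ℝ) = 2 ^ (d + 3) * ((d : ℝ) + 1) ^ 2 := by rw [hκ]; push_cast; ring
      have h6 : 2 * ((P.card : ℝ) / κ) ≤ S.card * (1 / 2) ^ (d + 2) := by
        rw [h5, ← mul_div_assoc, div_le_iff₀ (by positivity)]
        have e : (S.card : ℝ) * (1 / 2) ^ (d + 2) * (2 ^ (d + 3) * ((d : ℝ) + 1) ^ 2) =
            2 * (S.card * ((d : ℝ) + 1) ^ 2) := by
          have : (1 / 2 : ℝ) ^ (d + 2) * 2 ^ (d + 3) = 2 := by
            rw [pow_succ 2 (d + 2), ← mul_assoc, ← mul_pow]
            norm_num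
          linear_combination (S.card * ((d : ℝ) + 1) ^ 2) * this
        rw [e]
        linarith
      linarith
    have hcard' : (0 : ℝ) ≤ Fintype.card (Om U) := Nat.cast_nonneg _
    have h3 : (Bad.card : ℝ) * Real.exp (-(Real.log 2 * ((P.card : ℝ) / κ))) ≤
        (Real.exp (-((P.card : ℝ) / κ)) * Fintype.card (Om U)) *
          Real.exp (-(Real.log 2 * ((P.card : ℝ) / κ))) := by
      refine h1.trans ?_
      have h4 : Real.exp (-(2 * ((P.card : ℝ) / κ))) ≤ Real.exp (-((P.card : ℝ) / κ)) *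
          Real.exp (-(Real.log 2 * ((P.card : ℝ) / κ))) := by
        rw [← Real.exp_add]
        apply Real.exp_le_exp.2
        have h5 := Real.log_two_lt_d9
        have h6 : (0 : ℝ) ≤ (P.card : ℝ) / κ := by positivity
        have h7 : Real.log 2 * ((P.card : ℝ) / κ) ≤ 1 * ((P.card : ℝ) / κ) :=
          mul_le_mul_of_nonneg_right (by linarith) h6
        linarith
      calc (∏ p ∈ S, (1 - (1 / 2 : ℝ) ^ (Sp U cf p).card / 2)) * Fintype.card (Om U)
          ≤ (Real.exp (-((P.card : ℝ) / κ)) *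
            Real.exp (-(Real.log 2 * ((P.card : ℝ) / κ)))) * Fintype.card (Om U) :=
            mul_le_mul_of_nonneg_right (h2.trans h4) hcard'
        _ = _ := by ring
    exact le_of_mul_le_mul_right h3 (Real.exp_pos _)

end

end Pool.Agent.N547.EG.Sel
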