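import Pool.Agent.N929.EG.Stm

/-!
# EG/FAM: one good family
-/

set_option autoImplicit false

namespace Pool.Agent.N547.EG.Fam

open Finset
open Pool.Agent.N929.EG
open scoped Classical

noncomputable section

variable {α σ : Type}

lemma g4_of {Y : TS α σ} {L : Finset σ} {κ M0 N : ℕ} {w : α} (hw : w ∈ Y.K N)
    (hS : N < M0 * (Y.S w).card) (hB : N < M0 * (Y.B w).card)
    (h1 : (Y.S w).card ≤ κ * (L ∩ Y.S w).card) (h2 : (Y.B w).card ≤ κ * (L ∩ Y.B w).card) :
    G4 Y L (κ * M0) w := by
  have hlen := Y.len_K N w hw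
  have e1 : Oc Y L w = L ∩ Y.B w := by
    ext q
    unfold Oc
    rw [mem_filter, mem_inter]
  have e2 : Sl Y L w = (L ∩ Y.S w) ∪ (L ∩ Y.B w) := by
    ext q
    unfold Sl
    rw [mem_filter, mem_union, mem_inter, mem_inter]
    tauto
  have hdis : Disjoint (L ∩ Y.S w) (L ∩ Y.B w) := by
    rw [Finset.disjoint_left]
    intro q hq hq'
    rw [mem_inter] at hq hq'
    exact Y.disj N w q hw hq.2 hq'.2
  have e3 : (Sl Y L w).card = (L ∩ Y.S w).card + (L ∩ Y.B w).card := by
    rw [e2, card_union_of_disjoint hdis]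
  have h3 : N ≤ κ * M0 * (L ∩ Y.B w).card := by
    calc N ≤ M0 * (Y.B w).card := hB.le
      _ ≤ M0 * (κ * (L ∩ Y.B w).card) := Nat.mul_le_mul_left _ h2
      _ = _ := by ring
  have h4 : N ≤ κ * M0 * (L ∩ Y.S w).card := by
    calc N ≤ M0 * (Y.S w).card := hS.le
      _ ≤ M0 * (κ * (L ∩ Y.S w).card) := Nat.mul_le_mul_left _ h1
      _ = _ := by ring
  unfold G4
  rw [hlen, e1, e3, mul_add]
  exact ⟨h3, by omega⟩

theorem fam (hsel : S_SEL) : S_FAM := by
  intro α σ Y μ hμ ⟨M0, θ, C', hM0, hθ0, hθ1, hC', hbad⟩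
  obtain ⟨κ, hκ, hsel⟩ := hsel Y.d
  have hM0R : (0 : ℝ) < M0 := by exact_mod_cast hM0
  have hκR : (0 : ℝ) < κ := by exact_mod_cast hκ
  obtain ⟨a, ha⟩ : ∃ a : ℝ, a = 1 / (M0 * κ) := ⟨_, rfl⟩
  have ha0 : 0 < a := by rw [ha]; positivity
  have hlθ : 0 < Real.log (1 / θ) := Real.log_pos (by rw [lt_div_iff₀ hθ0]; linarith)
  obtain ⟨c, hc⟩ : ∃ c : ℝ, c = min (Real.log (1 / θ)) (a / 2) := ⟨_, rfl⟩
  have hc0 : 0 < c := by rw [hc]; exact lt_min hlθ (by positivity)
  have hc1 : c ≤ Real.log (1 / θ) := by rw [hc]; exact min_le_left _ _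
  have hc2 : c ≤ a / 2 := by rw [hc]; exact min_le_right _ _
  refine ⟨c, C' + 2 * (2 / a + 1), κ * M0, hc0, by positivity, Nat.mul_pos hκ hM0, ?_⟩
  intro n hn
  obtain ⟨ι, _, _, Λ, hΛ, hP⟩ := hsel σ (Y.U (2 * n)) Y.cf Y.cf_symm (Y.deg (2 * n))
  have hιpos : (0 : ℝ) < Fintype.card ι := by exact_mod_cast Fintype.card_pos
  -- the exceptional sets
  obtain ⟨R, hR⟩ : ∃ R : ℕ → ι → Finset α, ∀ N i, R N i =
      (Y.K N).filter (fun w => w ∉ bad Y M0 N ∧ ¬ G4 Y (Λ i) (κ * M0) w) := ⟨_, fun _ _ => rfl⟩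
  have hRs : ∀ N ∈ Icc n (2 * n), ∑ i, ((R N i).card : ℝ) / ((Y.K N).card : ℝ) ≤
      2 * Real.exp (-(a * n)) * Fintype.card ι := by
    intro N hN
    rw [mem_Icc] at hN
    have key : ∀ w ∈ Y.K N, ((univ.filter (fun i => w ∈ R N i)).card : ℝ) ≤
        2 * Real.exp (-(a * n)) * Fintype.card ι := by
      intro w hw
      by_cases hb : w ∈ bad Y M0 N
      · have : univ.filter (fun i => w ∈ R N i) = ∅ := by
          refine filter_eq_empty_iff.mpr fun i _ hi => ?_
          rw [hR, mem_filter] at hi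
          exact hi.2.1 hb
        rw [this, card_empty, Nat.cast_zero]
        positivity
      · unfold bad at hb
        rw [mem_filter] at hb
        push Not at hb
        obtain ⟨hb1, hb2⟩ := hb hw
        obtain ⟨hSU, hBU⟩ := Y.S_U N (2 * n) w hw hN.2
        have hsub : univ.filter (fun i => w ∈ R N i) ⊆
            univ.filter (fun i => κ * (Λ i ∩ Y.S w).card < (Y.S w).card) ∪
            univ.filter (fun i => κ * (Λ i ∩ Y.B w).card < (Y.B w).card) := by
          intro i hi
          rw [mem_filter, hR, mem_filter] at hi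
          rw [mem_union, mem_filter, mem_filter]
          by_contra hcon
          push Not at hcon
          exact hi.2.2.2 (g4_of hw hb1 hb2 (hcon.1 (mem_univ _)) (hcon.2 (mem_univ _)))
        have hexp : ∀ P : Finset σ, N < M0 * P.card →
            Real.exp (-((P.card : ℝ) / κ)) ≤ Real.exp (-(a * n)) := by
          intro P hPc
          apply Real.exp_le_exp.2
          have h1 : (n : ℝ) ≤ M0 * P.card := by
            exact_mod_cast hN.1.trans hPc.le
          have h2 : a * n ≤ (P.card : ℝ) / κ := by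
            rw [ha, le_div_iff₀ hκR]
            have : 1 / ((M0 : ℝ) * κ) * n * κ = n / M0 := by
              field_simp
            rw [this, div_le_iff₀ hM0R]
            linarith
          linarith
        have h1 := hP (Y.S w) hSU
        have h2 := hP (Y.B w) hBU
        have h3 := hexp _ hb1
        have h4 := hexp _ hb2
        calc ((univ.filter (fun i => w ∈ R N i)).card : ℝ)
            ≤ (((univ.filter (fun i => κ * (Λ i ∩ Y.S w).card < (Y.S w).card)).card +
              (univ.filter (fun i => κ * (Λ i ∩ Y.B w).card < (Y.B w).card)).card : ℕ) : ℝ) := by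
              exact_mod_cast (card_le_card hsub).trans (card_union_le _ _)
          _ ≤ Real.exp (-(((Y.S w).card : ℝ) / κ)) * Fintype.card ι +
              Real.exp (-(((Y.B w).card : ℝ) / κ)) * Fintype.card ι := by
              push_cast
              exact add_le_add h1 h2
          _ ≤ Real.exp (-(a * n)) * Fintype.card ι + Real.exp (-(a * n)) * Fintype.card ι :=
              add_le_add (mul_le_mul_of_nonneg_right h3 hιpos.le)
                (mul_le_mul_of_nonneg_right h4 hιpos.le)
          _ = _ := by ring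
    have hswap : ∑ i, ((R N i).card : ℝ) =
        ∑ w ∈ Y.K N, ((univ.filter (fun i => w ∈ R N i)).card : ℝ) := by
      have e1 : ∀ i, ((R N i).card : ℝ) =
          ∑ w ∈ Y.K N, if w ∈ R N i then (1 : ℝ) else 0 := by
        intro i
        rw [← sum_filter, sum_const, nsmul_eq_mul, mul_one]
        congr 2
        ext w
        rw [mem_filter]
        constructor
        · intro h
          refine ⟨?_, h⟩
          rw [hR, mem_filter] at h
          exact h.1
        · exact fun h => h.2
      simp_rw [e1]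
      rw [sum_comm]
      refine sum_congr rfl fun w _ => ?_
      rw [← sum_filter, sum_const, nsmul_eq_mul, mul_one]
    rw [← sum_div]
    rcases Nat.eq_zero_or_pos (Y.K N).card with h0 | h0
    · rw [h0, Nat.cast_zero, div_zero]
      positivity
    · have h0' : (0 : ℝ) < (Y.K N).card := by exact_mod_cast h0
      rw [div_le_iff₀ h0', hswap]
      calc _ ≤ ∑ w ∈ Y.K N, 2 * Real.exp (-(a * n)) * Fintype.card ι := sum_le_sum key
        _ = _ := by rw [sum_const, nsmul_eq_mul]; ring
  -- the choice of the family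
  obtain ⟨i, -, hi⟩ : ∃ i ∈ (univ : Finset ι),
      ∑ N ∈ Icc n (2 * n), ((R N i).card : ℝ) / ((Y.K N).card : ℝ) ≤
      ((n : ℝ) + 1) * (2 * Real.exp (-(a * n))) := by
    refine exists_le_of_sum_le univ_nonempty ?_
    rw [sum_comm, sum_const, nsmul_eq_mul]
    calc _ ≤ ∑ N ∈ Icc n (2 * n), 2 * Real.exp (-(a * n)) * Fintype.card ι := sum_le_sum hRs
      _ = ((n : ℝ) + 1) * (2 * Real.exp (-(a * n)) * Fintype.card ι) := by
          rw [sum_const, nsmul_eq_mul, Nat.card_Icc]
          congr 1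
          have : 2 * n + 1 - n = n + 1 := by omega
          rw [this]
          push_cast
          ring
      _ = _ := by rw [card_univ]; ring
      _ ≤ _ := le_rfl
  refine ⟨Λ i, (hΛ i).2, fun N hN1 hN2 => ?_⟩
  have hK0 : (0 : ℝ) ≤ (Y.K N).card := Nat.cast_nonneg _
  have p1 : ((R N i).card : ℝ) ≤ ((n : ℝ) + 1) * (2 * Real.exp (-(a * n))) * (Y.K N).card := by
    have h3 := single_le_sum (f := fun N => ((R N i).card : ℝ) / ((Y.K N).card : ℝ))
      (fun t _ => by positivity) (mem_Icc.2 ⟨hN1, hN2⟩)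
    have h4 := h3.trans hi
    rcases Nat.eq_zero_or_pos (Y.K N).card with h0 | h0
    · have : R N i = ∅ := by
        rw [card_eq_zero] at h0
        rw [hR, h0, filter_empty]
      rw [this, card_empty, Nat.cast_zero]
      positivity
    · have h0' : (0 : ℝ) < (Y.K N).card := by exact_mod_cast h0
      rwa [div_le_iff₀ h0'] at h4
  have hsub : (Y.K N).filter (fun w => ¬ G4 Y (Λ i) (κ * M0) w) ⊆ bad Y M0 N ∪ R N i := by
    intro w hw
    rw [mem_filter] at hw
    rw [mem_union, hR, mem_filter]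
    by_cases hb : w ∈ bad Y M0 N
    · exact Or.inl hb
    · exact Or.inr ⟨hw.1, hb, hw.2⟩
  have hcard : (((Y.K N).filter (fun w => ¬ G4 Y (Λ i) (κ * M0) w)).card : ℝ) ≤
      ((bad Y M0 N).card : ℝ) + ((R N i).card : ℝ) := by
    exact_mod_cast (card_le_card hsub).trans (card_union_le _ _)
  refine hcard.trans ?_
  -- estimates
  have q1 : ((bad Y M0 N).card : ℝ) ≤ C' * (Real.exp (-(c * n)) * μ ^ N) := by
    refine (hbad N).trans (mul_le_mul_of_nonneg_left ?_ hC')
    rw [mul_pow]
    refine mul_le_mul_of_nonneg_right ?_ (by positivity)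
    calc θ ^ N ≤ θ ^ n := pow_le_pow_of_le_one hθ0.le hθ1.le hN1
      _ = Real.exp (-(Real.log (1 / θ) * n)) := by
        rw [one_div, Real.log_inv, ← Real.rpow_natCast, Real.rpow_def_of_pos hθ0]
        congr 1
        ring
      _ ≤ Real.exp (-(c * n)) := by
        apply Real.exp_le_exp.2
        have := mul_le_mul_of_nonneg_right hc1 (Nat.cast_nonneg (α := ℝ) n)
        linarith
  have q2 : ((n : ℝ) + 1) * (2 * Real.exp (-(a * n))) ≤
      2 * (2 / a + 1) * Real.exp (-(c * n)) := by
    have h1 : (n : ℝ) + 1 ≤ (2 / a + 1) * Real.exp (a / 2 * n) := by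
      have h2 := Real.add_one_le_exp (a / 2 * n)
      have h3 : (n : ℝ) = 2 / a * (a / 2 * n) := by field_simp
      have h4 : 2 / a * (a / 2 * n) ≤ 2 / a * Real.exp (a / 2 * n) :=
        mul_le_mul_of_nonneg_left (by linarith) (by positivity)
      have h5 : (1 : ℝ) ≤ Real.exp (a / 2 * n) := Real.one_le_exp (by positivity)
      rw [add_mul, one_mul]
      linarith
    have h2 : Real.exp (a / 2 * n) * Real.exp (-(a * n)) = Real.exp (-(a / 2 * n)) := by
      rw [← Real.exp_add]
      congr 1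
      ring
    have h3 : Real.exp (-(a / 2 * n)) ≤ Real.exp (-(c * n)) := by
      apply Real.exp_le_exp.2
      have := mul_le_mul_of_nonneg_right hc2 (Nat.cast_nonneg (α := ℝ) n)
      linarith
    calc ((n : ℝ) + 1) * (2 * Real.exp (-(a * n)))
        ≤ ((2 / a + 1) * Real.exp (a / 2 * n)) * (2 * Real.exp (-(a * n))) :=
          mul_le_mul_of_nonneg_right h1 (by positivity)
      _ = 2 * (2 / a + 1) * (Real.exp (a / 2 * n) * Real.exp (-(a * n))) := by ring
      _ = 2 * (2 / a + 1) * Real.exp (-(a / 2 * n)) := by rw [h2]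
      _ ≤ _ := mul_le_mul_of_nonneg_left h3 (by positivity)
  have q3 := mul_le_mul_of_nonneg_right q2 hK0
  have hexp0 : 0 < Real.exp (-(c * n)) := Real.exp_pos _
  have hμN : 0 ≤ μ ^ N := by positivity
  have r1 : 0 ≤ 2 * (2 / a + 1) * (Real.exp (-(c * n)) * μ ^ N) := by positivity
  have r2 : 0 ≤ C' * (Real.exp (-(c * n)) * (Y.K N).card) := by positivity
  calc _ ≤ C' * (Real.exp (-(c * n)) * μ ^ N) +
        2 * (2 / a + 1) * Real.exp (-(c * n)) * (Y.K N).card := by linarith
    _ ≤ (C' + 2 * (2 / a + 1)) * Real.exp (-(c * n)) * (μ ^ N + (Y.K N).card) := by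
        have : (C' + 2 * (2 / a + 1)) * Real.exp (-(c * n)) * (μ ^ N + (Y.K N).card) =
          C' * (Real.exp (-(c * n)) * μ ^ N) + 2 * (2 / a + 1) * Real.exp (-(c * n)) * (Y.K N).card +
          (2 * (2 / a + 1) * (Real.exp (-(c * n)) * μ ^ N) +
          C' * (Real.exp (-(c * n)) * (Y.K N).card)) := by ring
        rw [this]
        linarith

end

end Pool.Agent.N547.EG.Fam
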