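import Pool.Agent.N929.EG.Stm

/-!
# EG/MV: occupying or freeing `t` slots
-/

set_option autoImplicit false

namespace Pool.Agent.N547.EG

open Finset
open Pool.Agent.N929.EG
open scoped Classical

noncomputable section

variable {α σ : Type} {Y : TS α σ} {L : Finset σ} {st : α → α} {fl : α → Finset σ → α}

theorem gen (h : Fill Y L st fl) (Q : ℕ → ℕ → Prop) (M : ℝ) (N N' : ℕ) (g : ℕ → ℕ) (hM : 0 ≤ M)
    (hg : ∀ S i, Q S i → i ≤ S → Y.s * i ≤ N → N' + Y.s * i = N + Y.s * g i ∧
      (S.choose i : ℝ) ≤ M * (S.choose (g i) : ℝ)) :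
    (((Y.K N).filter (fun w => Q (Sl Y L w).card (Oc Y L w).card)).card : ℝ) ≤
        M * ((Y.K N').card : ℝ) := by
  obtain ⟨G, hG⟩ : ∃ G, G = (Y.K N).filter (fun w => Q (Sl Y L w).card (Oc Y L w).card) := ⟨_, rfl⟩
  rw [← hG]
  obtain ⟨k, hk⟩ : ∃ k : α → ℕ, ∀ e, k e = (N - Y.len e) / Y.s := ⟨_, fun _ => rfl⟩
  have hs := Y.hs
  -- facts
  have fact : ∀ w ∈ G, w ∈ Y.K (Y.len w) ∧ k (st w) = (Oc Y L w).card ∧
      Em Y L (st w) ∧ Sl Y L (st w) = Sl Y L w ∧ Y.len (st w) + Y.s * (Oc Y L w).card = N ∧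
      Q (Sl Y L w).card (Oc Y L w).card := by
    intro w hw
    rw [hG, mem_filter] at hw
    have h1 := Y.len_K N w hw.1
    have h2 : w ∈ Y.K (Y.len w) := by rw [h1]; exact hw.1
    have h3 := h.st_len w h2
    rw [h1] at h3
    refine ⟨h2, ?_, h.st_em w h2, h.st_sl w h2, h3, hw.2⟩
    rw [hk, ← h3, Nat.add_sub_cancel_left, Nat.mul_div_cancel_left _ (by omega)]
  have hOS : ∀ w, (Oc Y L w).card ≤ (Sl Y L w).card := by
    intro w
    apply card_le_card
    intro q hq
    unfold Oc at hq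
    unfold Sl
    rw [mem_filter] at hq ⊢
    exact ⟨hq.1, Or.inr hq.2⟩
  have hG1 : (G.card : ℝ) ≤ ∑ e ∈ G.image st, (((Sl Y L e).card.choose (k e) : ℕ) : ℝ) := by
    rw [card_eq_sum_card_image st G]
    push_cast
    refine sum_le_sum fun e _ => ?_
    have : (G.filter (fun w => st w = e)).card ≤ (Sl Y L e).card.choose (k e) := by
      rw [← card_powersetCard]
      apply card_le_card_of_injOn (fun w => Oc Y L w)
      · intro w hw
        rw [mem_coe, mem_filter] at hw
        obtain ⟨hw, rfl⟩ := hw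
        obtain ⟨-, h2, -, h4, -⟩ := fact w hw
        rw [mem_coe, mem_powersetCard, h4, h2]
        refine ⟨?_, rfl⟩
        intro q hq
        unfold Oc at hq
        unfold Sl
        rw [mem_filter] at hq ⊢
        exact ⟨hq.1, Or.inr hq.2⟩
      · intro w hw w' hw' heq
        rw [mem_coe, mem_filter] at hw hw'
        have e1 := h.fl_st w (fact w hw.1).1
        have e2 := h.fl_st w' (fact w' hw'.1).1
        have heq' : Oc Y L w = Oc Y L w' := heq
        rw [← e1, ← e2, hw.2, hw'.2, heq']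
    exact_mod_cast this
  have hcls : ∀ e ∈ G.image st, Em Y L e ∧ Y.len e + Y.s * g (k e) = N' ∧
      (((Sl Y L e).card.choose (k e) : ℕ) : ℝ) ≤ M * ((Sl Y L e).card.choose (g (k e)) : ℝ) := by
    intro e he
    rw [mem_image] at he
    obtain ⟨w, hw, rfl⟩ := he
    obtain ⟨-, h2, h3, h4, h5, h6⟩ := fact w hw
    obtain ⟨h7, h8⟩ := hg _ _ h6 (hOS w) (by omega)
    rw [h2, h4]
    exact ⟨h3, by omega, h8⟩
  have hG2 : ∑ e ∈ G.image st, ((Sl Y L e).card.choose (g (k e)) : ℝ) ≤ ((Y.K N').card : ℝ) := by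
    have hc : ∀ e ∈ G.image st, ((((Sl Y L e).powersetCard (g (k e))).image (fl e)).card) =
        (Sl Y L e).card.choose (g (k e)) := by
      intro e he
      rw [card_image_of_injOn, card_powersetCard]
      intro U hU U' hU' heq
      rw [mem_coe, mem_powersetCard] at hU hU'
      have h1 := (hcls e he).1
      rw [← h.fl_oc e U h1 hU.1, ← h.fl_oc e U' h1 hU'.1]
      exact congrArg (Oc Y L) heq
    have hdisj : ∀ e ∈ G.image st, ∀ e' ∈ G.image st, e ≠ e' →
        Disjoint (((Sl Y L e).powersetCard (g (k e))).image (fl e))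
          (((Sl Y L e').powersetCard (g (k e'))).image (fl e')) := by
      intro e he e' he' hne
      rw [Finset.disjoint_left]
      intro w hw hw'
      rw [mem_image] at hw hw'
      obtain ⟨U, hU, rfl⟩ := hw
      obtain ⟨U', hU', heq⟩ := hw'
      rw [mem_powersetCard] at hU hU'
      apply hne
      rw [← h.st_fl e U (hcls e he).1 hU.1, ← heq, h.st_fl e' U' (hcls e' he').1 hU'.1]
    have hun := card_biUnion hdisj
    rw [sum_congr rfl hc] at hun
    have hsub : (G.image st).biUnion (fun e => ((Sl Y L e).powersetCard (g (k e))).image (fl e)) ⊆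
        Y.K N' := by
      intro w hw
      rw [mem_biUnion] at hw
      obtain ⟨e, he, hw⟩ := hw
      rw [mem_image] at hw
      obtain ⟨U, hU, rfl⟩ := hw
      rw [mem_powersetCard] at hU
      obtain ⟨h1, h2, -⟩ := hcls e he
      have h3 := h.fl_K e U h1 hU.1
      rw [hU.2, h2] at h3
      exact h3
    have := card_le_card hsub
    rw [hun] at this
    exact_mod_cast this
  calc (G.card : ℝ) ≤ ∑ e ∈ G.image st, (((Sl Y L e).card.choose (k e) : ℕ) : ℝ) := hG1
    _ ≤ ∑ e ∈ G.image st, M * ((Sl Y L e).card.choose (g (k e)) : ℝ) :=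
      sum_le_sum fun e he => (hcls e he).2.2
    _ = M * ∑ e ∈ G.image st, ((Sl Y L e).card.choose (g (k e)) : ℝ) := by rw [mul_sum]
    _ ≤ _ := mul_le_mul_of_nonneg_left hG2 hM

theorem mv : S_MV := by
  intro α σ Y L st fl h Q M N t hM
  constructor
  · intro hQ
    refine gen h Q M N (N + Y.s * t) (fun i => i + t) hM ?_
    intro S i hq hi _
    exact ⟨by ring, hQ S i hq hi⟩
  · intro hQ
    refine gen h Q M N (N - Y.s * t) (fun i => i - t) hM ?_
    intro S i hq hi h2
    obtain ⟨h3, h4⟩ := hQ S i hq hi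
    refine ⟨?_, h4⟩
    obtain ⟨j, rfl⟩ := Nat.exists_eq_add_of_le h3
    rw [Nat.add_sub_cancel_left]
    rw [Nat.mul_add] at h2 ⊢
    omega

end

end Pool.Agent.N547.EG
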